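import Mathlib
import Pool.Agent.Helper11.EKMain

/-!
# MP_7f94de_pr: anti-concentration of elementary symmetric polynomials, bounded laws

For i.i.d. complex random variables `Y_i` that are almost surely bounded, not almost surely
constant, and have at least one non-zero moment `E[Y^j]` (`j ≥ 1`), for every `k = k(n) = o(n)` and
every `ε > 0`, `P(|e_{k(n)}(Y_1, …, Y_n)| ≤ exp(-ε n)) → 0`.

Idea. Let `q` be the least index with `E[Y^q] ≠ 0`. Solving Newton's identity
`(i+1) e_{i+1} = ∑_l (-1)^l S_{l+1} e_{i-l}` for the term with `l = q - 1` and using the law of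
large numbers for the power sums, one gets (for `k ≤ κ n`) that
`|e_{k-j}| ≤ (2σ)^j X` with `X = max_{l<q} |e_{k-l}|/σ^l ≥ 1`. So, when `m` further variables are
added, `e_k` is, up to a small error, a polynomial of degree `< q` in them whose top relevant
coefficient is not small; a decoupling argument (Cauchy–Schwarz over blocks) and the fact that
`P(S_h = S_h') → 0` for sums of non-degenerate i.i.d. variables give the anti-concentration.
-/

open MeasureTheory ProbabilityTheory Filter Topology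

namespace Pool.Agent.Results.MP_7f94de_pr.BoundedLaws

theorem result :
    ∀ (Ω : Type*) [MeasurableSpace Ω] (P : Measure Ω) [IsProbabilityMeasure P]
      (Y : ℕ → Ω → ℂ),
      (∀ i, Measurable (Y i)) →
      iIndepFun Y P →
      (∀ i, IdentDistrib (Y i) (Y 0) P P) →
      (¬ ∃ c : ℂ, ∀ᵐ ω ∂P, Y 0 ω = c) →
      (∃ M : ℝ, ∀ᵐ ω ∂P, ‖Y 0 ω‖ ≤ M) →
      (∃ j : ℕ, 1 ≤ j ∧ ∫ ω, (Y 0 ω) ^ j ∂P ≠ 0) →
      ∀ (k : ℕ → ℕ),
        Tendsto (fun n : ℕ => (k n : ℝ) / (n : ℝ)) atTop (𝓝 0) →
        ∀ ε : ℝ, 0 < ε →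
          Tendsto
            (fun n : ℕ =>
              P {ω | ‖∑ s ∈ (Finset.range n).powersetCard (k n), ∏ i ∈ s, Y i ω‖
                    ≤ Real.exp (-(ε * (n : ℝ)))})
            atTop (𝓝 0) := by
  intro Ω _ P _ Y hY hind hid hnd hbd hmom k hk ε hε
  obtain ⟨M, hM⟩ := hbd
  -- the scaling constant
  set K : ℝ := max M 1 with hK
  have hK1 : 1 ≤ K := le_max_right _ _
  have hKpos : 0 < K := by linarith
  have hKM : M ≤ K := le_max_left _ _
  -- truncation and scaling
  set g : ℂ → ℂ := fun y => if ‖y‖ ≤ K then y / (K : ℂ) else 0 with hg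
  have hgm : Measurable g := by
    apply Measurable.ite (measurableSet_le measurable_norm measurable_const)
    · exact measurable_id.div_const _
    · exact measurable_const
  have hgb : ∀ y, ‖g y‖ ≤ 1 := by
    intro y
    simp only [hg]
    split_ifs with h
    · rw [norm_div, Complex.norm_real, Real.norm_eq_abs, abs_of_pos hKpos, div_le_one hKpos]
      exact h
    · simp
  have hK0 : (K : ℂ) ≠ 0 := by exact_mod_cast hKpos.ne'
  -- almost surely all variables are bounded
  have hall : ∀ᵐ ω ∂P, ∀ i, ‖Y i ω‖ ≤ K := by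
    rw [ae_all_iff]
    intro i
    have h0 : ∀ᵐ ω ∂P, ‖Y 0 ω‖ ≤ K := hM.mono (fun ω h => h.trans hKM)
    have hset : MeasurableSet {y : ℂ | ‖y‖ ≤ K} := measurableSet_le measurable_norm measurable_const
    exact (hid i).symm.ae_snd hset h0
  have hgY : ∀ᵐ ω ∂P, ∀ i, Y i ω = (K : ℂ) * g (Y i ω) := by
    filter_upwards [hall] with ω hω i
    simp only [hg, if_pos (hω i)]
    field_simp
  set Y' : ℕ → Ω → ℂ := fun i ω => g (Y i ω) with hY'
  have hcore := Pool.Agent.Helper11.EK.core P Y' (fun i => hgm.comp (hY i))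
    (hind.comp (fun _ => g) (fun _ => hgm)) (fun i => (hid i).comp hgm) (fun i ω => hgb _)
    (by
      rintro ⟨c, hc⟩
      apply hnd
      refine ⟨(K : ℂ) * c, ?_⟩
      filter_upwards [hc, hgY] with ω h1 h2
      rw [h2 0]
      simp only [hY'] at h1
      rw [h1])
    (by
      obtain ⟨j, hj, hne⟩ := hmom
      refine ⟨j, hj, ?_⟩
      intro h0
      apply hne
      have : ∫ ω, (Y 0 ω) ^ j ∂P = ∫ ω, (K : ℂ) ^ j * (Y' 0 ω) ^ j ∂P := by
        apply integral_congr_ae
        filter_upwards [hgY] with ω h2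
        simp only [hY']
        rw [← mul_pow, ← h2 0]
      rw [this, integral_const_mul, h0, mul_zero])
    k hk ε hε
  refine tendsto_of_tendsto_of_tendsto_of_le_of_le tendsto_const_nhds hcore (fun n => zero_le) ?_
  intro n
  apply measure_mono_ae
  filter_upwards [hgY] with ω hω hmem
  have hmem' : ‖∑ s ∈ (Finset.range n).powersetCard (k n), ∏ i ∈ s, Y i ω‖
      ≤ Real.exp (-(ε * (n : ℝ))) := hmem
  have hsum : ∑ s ∈ (Finset.range n).powersetCard (k n), ∏ i ∈ s, Y i ω =
      (K : ℂ) ^ (k n) * ∑ s ∈ (Finset.range n).powersetCard (k n), ∏ i ∈ s, Y' i ω := by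
    rw [Finset.mul_sum]
    apply Finset.sum_congr rfl
    intro s hs
    rw [← (Finset.mem_powersetCard.1 hs).2, ← Finset.prod_const, ← Finset.prod_mul_distrib]
    apply Finset.prod_congr rfl
    intro i _
    exact hω i
  rw [hsum, norm_mul, norm_pow, Complex.norm_real, Real.norm_eq_abs, abs_of_pos hKpos] at hmem'
  have hp : 1 ≤ K ^ (k n) := one_le_pow₀ hK1
  change ‖∑ s ∈ (Finset.range n).powersetCard (k n), ∏ i ∈ s, Y' i ω‖
      ≤ Real.exp (-(ε * (n : ℝ)))
  refine le_trans ?_ hmem'
  have := norm_nonneg (∑ s ∈ (Finset.range n).powersetCard (k n), ∏ i ∈ s, Y' i ω)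
  nlinarith

end Pool.Agent.Results.MP_7f94de_pr.BoundedLaws
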