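import Pool.Agent.Helper15.LogPot.Main

set_option autoImplicit false
open MeasureTheory ProbabilityTheory Filter Topology
open scoped ENNReal

namespace Pool.Agent.Results.MP_7f94de_pr.LogPotential

/-- The conclusion of the question (anti-concentration of the elementary symmetric polynomials of
order `k n = o(n)` at every exponential scale) holds for every law that has a part of bounded
logarithmic potential: there is a Borel set `A` with `P (Y 0 ∈ A) > 0` such that the integral of
log⁺ (1 / |Y 0 - c|) over the event `Y 0 ∈ A` is bounded uniformly in the complex number `c`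
(`logKernel z` is log⁺ (1/|z|), with value `⊤` at `z = 0`). -/
theorem result :
    ∀ (Ω : Type) [MeasurableSpace Ω] (P : Measure Ω) [IsProbabilityMeasure P]
      (Y : ℕ → Ω → ℂ),
      (∀ i, Measurable (Y i)) →
      iIndepFun Y P →
      (∀ i, IdentDistrib (Y i) (Y 0) P P) →
      (∃ A : Set ℂ, MeasurableSet A ∧ P (Y 0 ⁻¹' A) ≠ 0 ∧
        ∃ C : ℝ≥0∞, C ≠ ⊤ ∧
          ∀ c : ℂ, ∫⁻ ω in Y 0 ⁻¹' A, Pool.Agent.Helper15.LogPot.logKernel (Y 0 ω - c) ∂P ≤ C) →
      ∀ (k : ℕ → ℕ),
        Tendsto (fun n : ℕ => (k n : ℝ) / (n : ℝ)) atTop (𝓝 0) →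
        ∀ ε : ℝ, 0 < ε →
          Tendsto
            (fun n : ℕ =>
              P {ω | ‖∑ s ∈ (Finset.range n).powersetCard (k n), ∏ i ∈ s, Y i ω‖
                    ≤ Real.exp (-(ε * (n : ℝ)))})
            atTop (𝓝 0) := by
  intro Ω _ P _ Y hY hind hid ⟨A, hA, hA0, C, hCtop, hC⟩ k hk ε hε
  exact Pool.Agent.Helper15.LogPot.main Ω P Y hY hind hid A hA hA0 C hCtop hC k hk ε hε

end Pool.Agent.Results.MP_7f94de_pr.LogPotential
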